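import Mathlib

set_option autoImplicit false

namespace Pool.Agent.Results.MP_d56d33_an.Counter

open Filter Topology MeasureTheory Set Real

/-- `x` solves `x' = -p x - k(t) φ(q x) + f(t)` on `[t₀, T)` (the case `n = 1`, `m = 0`). -/
def Sol (p q : ℝ) (k φ f : ℝ → ℝ) (t₀ : ℝ) (T : EReal) (x : ℝ → ℝ) : Prop :=
  (t₀ : EReal) < T ∧
  (∀ t₁ : ℝ, t₀ ≤ t₁ → (t₁ : EReal) < T → AbsolutelyContinuousOnInterval x t₀ t₁ ∧
    IntervalIntegrable (fun t => φ (q * x t)) volume t₀ t₁) ∧
  ∀ᵐ t : ℝ, t₀ < t → (t : EReal) < T → HasDerivAt x (-p * x t - k t * φ (q * x t) + f t) t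

/-- exponential stability of the null solution of the unforced system. -/
def ExpStable (p q : ℝ) (k φ : ℝ → ℝ) : Prop :=
  ∃ ε₁ > 0, ∃ ε₂ > 0, ∀ (t₀ : ℝ) (T : EReal) (x : ℝ → ℝ), 0 ≤ t₀ → Sol p q k φ 0 t₀ T x →
    ∀ t : ℝ, t₀ ≤ t → (t : EReal) < T → |x t| ≤ ε₂ * |x t₀| * exp (-ε₁ * (t - t₀))

/-- `L₂`-stability of the forced system. -/
def L2Stable (p q : ℝ) (k φ : ℝ → ℝ) : Prop :=
  ∀ η₁ η₂ : ℝ, 0 ≤ η₁ → 0 ≤ η₂ → ∃ η₃ : ℝ, ∀ (t₀ : ℝ) (T : EReal) (x f : ℝ → ℝ), 0 ≤ t₀ →
    Measurable f → ∫⁻ t in Ioi 0, ENNReal.ofReal (f t ^ 2) < ENNReal.ofReal η₂ →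
    Sol p q k φ f t₀ T x → |x t₀| < η₁ →
    ∀ t₁ : ℝ, t₀ ≤ t₁ → (t₁ : EReal) < T → ∫ t in t₀..t₁, x t ^ 2 ≤ η₃

noncomputable def W (x : ℝ) : ℝ := log (cosh x)

lemma W_deriv (x : ℝ) : HasDerivAt W (tanh x) x := by
  have := (hasDerivAt_cosh x).log (cosh_pos x).ne'
  rwa [← tanh_eq_sinh_div_cosh] at this

lemma abs_tanh (x : ℝ) : |tanh x| ≤ 1 := by
  rw [tanh_eq_sinh_div_cosh, abs_div, abs_of_pos (cosh_pos x), div_le_one (cosh_pos x),
    abs_sinh, ← cosh_abs]
  exact (sinh_lt_cosh _).le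

lemma W_lip : LipschitzWith 1 W :=
  lipschitzWith_of_nnnorm_deriv_le (fun x => (W_deriv x).differentiableAt) fun x => by
    rw [(W_deriv x).deriv]
    exact_mod_cast abs_tanh x

lemma W_le (x : ℝ) : 0 ≤ W x ∧ W x ≤ |x| := by
  refine ⟨log_nonneg (one_le_cosh x), ?_⟩
  have := W_lip.dist_le_mul x 0
  simp only [W, cosh_zero, log_one, dist_zero_right, Real.norm_eq_abs, NNReal.coe_one,
    one_mul] at this
  exact (le_abs_self _).trans this

lemma sq_le (x R : ℝ) (h : W x ≤ R) : x ^ 2 ≤ exp (2 * R) * tanh x ^ 2 := by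
  have h1 : cosh x ≤ exp R := by
    rw [← exp_log (cosh_pos x)]; exact exp_le_exp.2 h
  have h2 : x ^ 2 ≤ sinh x ^ 2 := by
    rw [sq_le_sq, abs_sinh]
    exact self_le_sinh_iff.2 (abs_nonneg x)
  have h3 : sinh x ^ 2 = cosh x ^ 2 * tanh x ^ 2 := by
    rw [tanh_eq_sinh_div_cosh]; have := (cosh_pos x).ne'; field_simp
  have h4 : cosh x ^ 2 ≤ exp (2 * R) := by
    rw [two_mul, exp_add, ← pow_two]
    exact pow_le_pow_left₀ (cosh_pos x).le h1 2
  rw [h3] at h2
  exact h2.trans (mul_le_mul_of_nonneg_right h4 (by positivity))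

lemma sector (s : ℝ) : 0 ≤ s * tanh s ∧ s * tanh s ≤ s ^ 2 := by
  have h0 : ∀ s : ℝ, 0 ≤ s * sinh s := fun s => by
    rcases le_total 0 s with h | h
    · exact mul_nonneg h (sinh_nonneg_iff.2 h)
    · exact mul_nonneg_of_nonpos_of_nonpos h (sinh_nonpos_iff.2 h)
  have hd : ∀ s : ℝ, HasDerivAt (fun s => s * cosh s - sinh s) (s * sinh s) s := fun s => by
    exact (((hasDerivAt_id' s).mul (hasDerivAt_cosh s)).sub (hasDerivAt_sinh s)).congr_deriv
      (by ring)
  have hm : Monotone fun s => s * cosh s - sinh s :=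
    monotone_of_deriv_nonneg (fun s => (hd s).differentiableAt) fun s => by
      rw [(hd s).deriv]; exact h0 s
  rw [tanh_eq_sinh_div_cosh, ← mul_div_assoc]
  refine ⟨div_nonneg (h0 s) (cosh_pos s).le, ?_⟩
  rw [div_le_iff₀ (cosh_pos s)]
  rcases le_total 0 s with h | h
  · have := hm h
    simp only [zero_mul, sinh_zero, sub_zero] at this
    nlinarith
  · have := hm h
    simp only [zero_mul, sinh_zero, sub_zero] at this
    nlinarith

lemma ac_comp {x : ℝ → ℝ} {a b : ℝ} (h : AbsolutelyContinuousOnInterval x a b) :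
    AbsolutelyContinuousOnInterval (fun t => W (x t)) a b := by
  refine squeeze_zero (fun E => Finset.sum_nonneg fun _ _ => dist_nonneg)
    (fun E => Finset.sum_le_sum fun i _ => ?_) h
  simpa using W_lip.dist_le_mul (x (E.2 i).1) (x (E.2 i).2)

lemma tanh_cont : Continuous tanh := by
  have : tanh = fun x => sinh x / cosh x := funext tanh_eq_sinh_div_cosh
  rw [this]
  exact continuous_sinh.div continuous_cosh fun x => (cosh_pos x).ne'

theorem result : ∃ (p q : ℝ) (k φ : ℝ → ℝ) (ε η₁ η₂ : ℝ),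
    0 < ε ∧ (∀ t, 0 ≤ t → ε ≤ k t) ∧ (∀ b, 0 ≤ b → AbsolutelyContinuousOnInterval k 0 b) ∧
    φ 0 = 0 ∧ 0 < η₁ ∧ η₁ < η₂ ∧ (∀ s, s ≠ 0 → η₁ * s ^ 2 ≤ s * φ s ∧ s * φ s ≤ η₂ * s ^ 2) ∧
    Continuous φ ∧ L2Stable p q k φ ∧ ¬ ExpStable p q k φ := by
  refine ⟨-1, 1, fun _ => 1, fun s => s + tanh s, 1, 1, 2, one_pos, fun _ _ => le_rfl,
    fun b _ => contDiff_const.contDiffOn.absolutelyContinuousOnInterval, by simp, one_pos,
    one_lt_two, fun s _ => ?_, continuous_id.add tanh_cont, ?_, ?_⟩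
  · have := sector s
    constructor <;> nlinarith
  · intro η₁ η₂ h1 h2
    refine ⟨exp (2 * (η₁ + η₂ / 2)) * (2 * η₁ + η₂), fun t₀ T x f h0 hf hI hS hx t₁ ht₁ hT => ?_⟩
    obtain ⟨-, hac, hae⟩ := hS
    have hfi : IntegrableOn (fun t => f t ^ 2) (Ioi 0) :=
      (lintegral_ofReal_ne_top_iff_integrable (hf.pow_const 2).aestronglyMeasurable
        (Eventually.of_forall fun t => sq_nonneg (f t))).1 (hI.trans ENNReal.ofReal_lt_top).ne
    have hfb : ∫ t in Ioi 0, f t ^ 2 ≤ η₂ := by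
      rw [← ofReal_integral_eq_lintegral_ofReal hfi
        (Eventually.of_forall fun t => sq_nonneg (f t))] at hI
      exact ((ENNReal.ofReal_lt_ofReal_iff_of_nonneg
        (integral_nonneg fun t => sq_nonneg (f t))).1 hI).le
    have key : ∀ s, t₀ ≤ s → s ≤ t₁ →
        W (x s) + (∫ t in t₀..s, tanh (x t) ^ 2) / 2 ≤ η₁ + η₂ / 2 := by
      intro s hs1 hs2
      have hsT : (s : EReal) < T := lt_of_le_of_lt (by exact_mod_cast hs2) hT
      have a1 := (hac s hs1 hsT).1
      have a2 := (ac_comp a1).integral_deriv_eq_sub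
      have a3 : IntervalIntegrable (fun t => f t ^ 2) volume t₀ s := by
        rw [intervalIntegrable_iff_integrableOn_Ioc_of_le hs1]
        exact hfi.mono_set fun t ht => lt_of_le_of_lt h0 ht.1
      have a4 : IntervalIntegrable (fun t => tanh (x t) ^ 2) volume t₀ s :=
        ((tanh_cont.comp_continuousOn a1.continuousOn).pow 2).intervalIntegrable
      have a5 : ∫ t in t₀..s, deriv (fun t => W (x t)) t ≤
          ∫ t in t₀..s, (f t ^ 2 / 2 - tanh (x t) ^ 2 / 2) := by
        refine intervalIntegral.integral_mono_ae_restrict hs1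
          (ac_comp a1).intervalIntegrable_deriv ((a3.div_const 2).sub (a4.div_const 2)) ?_
        rw [← Measure.restrict_congr_set Ioc_ae_eq_Icc, EventuallyLE,
          ae_restrict_iff' measurableSet_Ioc]
        filter_upwards [hae] with t ht hti
        have b1 := (W_deriv (x t)).comp t
          (ht hti.1 (lt_of_le_of_lt (by exact_mod_cast hti.2) hsT))
        have b2 : deriv (fun t => W (x t)) t = _ := b1.deriv
        rw [b2]
        simp only [one_mul]
        nlinarith [sq_nonneg (f t - tanh (x t))]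
      rw [intervalIntegral.integral_sub (a3.div_const 2) (a4.div_const 2),
        intervalIntegral.integral_div, intervalIntegral.integral_div, a2] at a5
      have a6 : ∫ t in t₀..s, f t ^ 2 ≤ η₂ := by
        rw [intervalIntegral.integral_of_le hs1]
        refine le_trans (setIntegral_mono_set hfi (Eventually.of_forall fun t => sq_nonneg (f t))
          (HasSubset.Subset.eventuallyLE fun t ht => lt_of_le_of_lt h0 ht.1)) hfb
      have a7 := (W_le (x t₀)).2
      linarith
    have a1 := (hac t₁ ht₁ hT).1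
    have a4 : IntervalIntegrable (fun t => tanh (x t) ^ 2) volume t₀ t₁ :=
      ((tanh_cont.comp_continuousOn a1.continuousOn).pow 2).intervalIntegrable
    calc _ ≤ ∫ t in t₀..t₁, exp (2 * (η₁ + η₂ / 2)) * tanh (x t) ^ 2 := by
          refine intervalIntegral.integral_mono_on ht₁ (a1.continuousOn.pow 2).intervalIntegrable
            (a4.const_mul _) fun t ht => sq_le _ _ ?_
          have b1 := key t ht.1 ht.2
          have b2 : 0 ≤ ∫ t in t₀..t, tanh (x t) ^ 2 :=
            intervalIntegral.integral_nonneg ht.1 fun _ _ => sq_nonneg _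
          linarith
      _ ≤ _ := by
          rw [intervalIntegral.integral_const_mul]
          have b1 := key t₁ ht₁ le_rfl
          have b2 := (W_le (x t₁)).1
          gcongr
          linarith
  · rintro ⟨ε₁, h1, ε₂, h2, h⟩
    have hl : Tendsto (fun a : ℝ => ε₂ * exp (-ε₁ * a)) atTop (𝓝 (ε₂ * 0)) :=
      (tendsto_exp_atBot.comp (tendsto_id.const_mul_atTop_of_neg (by linarith))).const_mul _
    rw [mul_zero] at hl
    obtain ⟨a, ha1, ha2⟩ := ((hl.eventually (gt_mem_nhds (show (0 : ℝ) < 1 / 2 by norm_num))).and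
      (eventually_gt_atTop 0)).exists
    have hc : ContDiff ℝ 1 fun t : ℝ => arsinh (sinh (2 * a) * exp (-t)) :=
      contDiff_arsinh.comp (by fun_prop)
    have := h 0 ⊤ (fun t => arsinh (sinh (2 * a) * exp (-t))) le_rfl
      ⟨EReal.coe_lt_top 0, fun t₁ _ _ => ⟨hc.contDiffOn.absolutelyContinuousOnInterval,
        Continuous.intervalIntegrable ((continuous_id.add tanh_cont).comp
          (continuous_const.mul hc.continuous)) _ _⟩,
        Eventually.of_forall fun t _ _ => by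
          convert (((hasDerivAt_neg t).exp).const_mul (sinh (2 * a))).arsinh using 1
          simp only [one_mul, tanh_arsinh, Pi.zero_apply, smul_eq_mul]
          ring⟩ a ha2.le (EReal.coe_lt_top a)
    simp only [neg_zero, exp_zero, mul_one, arsinh_sinh, sub_zero] at this
    have b1 : a ≤ arsinh (sinh (2 * a) * exp (-a)) := by
      rw [← sinh_le_sinh, sinh_arsinh, sinh_eq, sinh_eq, div_mul_eq_mul_div, sub_mul, ← exp_add,
        ← exp_add]
      have e1 : 2 * a + -a = a := by ring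
      have := exp_le_exp.2 (show -(2 * a) + -a ≤ -a by linarith)
      rw [e1]; linarith
    have b2 := (b1.trans (le_abs_self _)).trans this
    rw [abs_of_pos (by linarith)] at b2
    nlinarith

end Pool.Agent.Results.MP_d56d33_an.Counter
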